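import Pool.Agent.Lib.MP_4a593f_gt.KP.Main

/-!
The Gauss-Bonnet integrand in dimension 6 of a curvature tensor with sectional curvature at least
`κ ≥ 0` for which some plane of minimal curvature `κ` is an eigenvector of the curvature operator.
-/

namespace Pool.Agent.Lib.MP_4a593f_gt.Kept.KernelPlane

open Pool.HopfKP

/-- Let `κ ≥ 0` and let `R` be an algebraic curvature tensor on `ℝ⁶` with all sectional curvatures
at least `κ`. If there are linearly independent `x, y` with
`R(x,y,u,w) = κ (⟨x,u⟩⟨y,w⟩ - ⟨x,w⟩⟨y,u⟩)` for all `u, w` (that is, `x ∧ y` is an eigenvector of the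
curvature operator with the eigenvalue `κ`), then the Gauss-Bonnet integrand of `R` is at least
`5760 κ³`, its value for the tensor `κ I` of constant curvature `κ`. -/
theorem result :
    (∀ (R : Ten) (κ : ℝ) (x y : Vec), IsCurvature R → 0 ≤ κ → SecGE R κ →
      LinearIndependent ℝ ![x, y] →
      (∀ u w : Vec, ev R x y u w = κ * (dot x u * dot y w - dot x w * dot y u)) →
      5760 * κ ^ 3 ≤ gb R) ∧
    (∀ κ : ℝ, gb (κ • cI) = 5760 * κ ^ 3) :=
  ⟨fun _ _ _ _ hR hκ hs hxy hz => main hR hκ hs hxy hz, fun κ => by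
    rw [gb3_diag_smul, gb_cI]; ring⟩

end Pool.Agent.Lib.MP_4a593f_gt.Kept.KernelPlane
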