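import Pool.Agent.Lib.MP_4a593f_gt.AL.Limit

/-!
The Chern-Milnor theorem in dimension 6: if the curvature operator of `R` dominates `Λ²w` for some
2-form `w`, then the Gauss-Bonnet integrand of `R` is at least `720 det w ≥ 0`.
-/

namespace Pool.Agent.Results.MP_4a593f_gt.MilnorSix

open Pool.HopfKP

/-- Let `R` be an algebraic curvature tensor on `ℝ⁶` and let `w` be a 2-form such that the quadratic
form `R(β, β) - (Λ²w)(β, β)` is nonnegative on 2-forms `β`, where
`(Λ²w)_{ijkl} = w_{ik} w_{jl} - w_{il} w_{jk}`. Then the Gauss-Bonnet integrand of `R` is at least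
`720 det w`, and `det w ≥ 0`. -/
theorem result (R : Ten) (w : Fin 6 → Fin 6 → ℝ) (hR : IsCurvature R)
    (hw : ∀ i j, w j i = - w i j)
    (h : ∀ β : Fin 6 → Fin 6 → ℝ, (∀ i j, β j i = - β i j) →
      0 ≤ ∑ i, ∑ j, ∑ k, ∑ l,
        (R i j k l - (w i k * w j l - w i l * w j k)) * β i j * β k l) :
    0 ≤ Matrix.det (Matrix.of w) ∧ 720 * Matrix.det (Matrix.of w) ≤ gb R :=
  ⟨Pool.HopfAL.det_nonneg hw, Pool.HopfAL.main hR hw fun β hβ => h β hβ⟩

end Pool.Agent.Results.MP_4a593f_gt.MilnorSix
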