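import Pool.Agent.Lib.MP_4a593f_gt.Q5.Fin
import Pool.Agent.Lib.MP_4a593f_gt.N2.Z3

/-!
`(n-2)`-positive curvature operators: the curvature term of the Weitzenböck formula is positive on
`p`-forms for all `1 ≤ p ≤ n/2`, in every dimension `n ≥ 3`, and `n - 2` cannot be replaced by
`n - 1`.
-/

namespace Pool.Agent.Results.MP_4a593f_gt.NMinusTwo

open HopfBig

/-- (1) For all `n ≥ 3` and every algebraic curvature tensor `R` on `ℝⁿ` with `(n-2)`-positive
curvature operator, the curvature term `Ric_ij φ_{iI} φ_{jI} - ((p-1)/2) R_ijkl φ_{ijJ} φ_{klJ}` of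
the Weitzenböck formula is positive for every nonzero `p`-form `φ`, `1 ≤ p ≤ n/2`.  (2) For every
`n ≥ 4` there is an algebraic curvature tensor with `(n-1)`-positive curvature operator for which
the curvature term of some 2-form is negative. -/
theorem result :
    (∀ n : ℕ, 3 ≤ n → ∀ R : Fin n → Fin n → Fin n → Fin n → ℝ,
      IsCurvature R → KPositive R (n - 2) → ∀ p : ℕ, 1 ≤ p → 2 * p ≤ n →
      ∀ φ : (Fin p → Fin n) → ℝ, IsForm φ → φ ≠ 0 → 0 < bochner R φ) ∧
    (∀ n : ℕ, 4 ≤ n → ∃ R : Fin n → Fin n → Fin n → Fin n → ℝ, IsCurvature R ∧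
      KPositive R (n - 1) ∧ ∃ φ : (Fin 2 → Fin n) → ℝ, IsForm φ ∧ bochner R φ < 0) :=
  ⟨fun _ hn _ hR hKP _ hp h2p _ hφ h0 => HopfQ5.nminus2 hn hR hKP hp h2p hφ h0, HopfN2.sharp⟩

end Pool.Agent.Results.MP_4a593f_gt.NMinusTwo
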