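import Pool.Agent.Lib.MP_4a593f_gt.Q5.Fin
import Pool.Agent.Lib.MP_4a593f_gt.Q4.Sharp

/-!
`(n-1)`-positive curvature operators: the curvature term of the Weitzenböck formula is positive on
`p`-forms for all odd `p`, and `n - 1` is optimal.
-/

open scoped BigOperators

namespace Pool.Agent.Results.MP_4a593f_gt.OptimalPositivity

open HopfBig

/-- (1) Let `n ≥ 13` and let `R` be an algebraic curvature tensor on `ℝⁿ` whose curvature
operator is `(n-1)`-positive. Then the curvature term of the Weitzenböck formula is positive on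
nonzero `p`-forms, for all `1 ≤ p ≤ n/2` with `p ≠ 2` (and `n ≥ 15` if `p = 4`), in particular for
all odd `p`.

(2) For every `n ≥ 1` there is an algebraic curvature tensor on `ℝⁿ` (the one of `S¹ × Sⁿ⁻¹`)
with `n`-positive curvature operator and a nonzero 1-form on which this term vanishes. -/
theorem result :
    (∀ n : ℕ, 13 ≤ n → ∀ R : Fin n → Fin n → Fin n → Fin n → ℝ, IsCurvature R →
      KPositive R (n - 1) → ∀ p : ℕ, 1 ≤ p → p ≠ 2 → (p = 4 → 15 ≤ n) → 2 * p ≤ n →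
      ∀ φ : (Fin p → Fin n) → ℝ, IsForm φ → φ ≠ 0 → 0 < bochner R φ) ∧
    (∀ n : ℕ, 1 ≤ n → ∃ R : Fin n → Fin n → Fin n → Fin n → ℝ,
      IsCurvature R ∧ KPositive R n ∧
        ∃ φ : (Fin 1 → Fin n) → ℝ, IsForm φ ∧ φ ≠ 0 ∧ bochner R φ = 0) :=
  ⟨fun _ hn _ hR hKP _ hp hp2 hp4 h2p _ hφ h0 =>
    HopfQ5.nminus1 hn hR hKP hp h2p hp2 hp4 hφ h0,
   fun n hn => HopfQ4.sharp_cyl n hn⟩

end Pool.Agent.Results.MP_4a593f_gt.OptimalPositivity
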