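import Pool.Agent.Lib.MP_4a593f_gt.EU.Seven

/-!
The Bochner (Weitzenböck) curvature term on 3-forms in dimension 8 under a curvature pinching
below 1/4: it is positive for pinching `> 391/1891 = 0.20676…`.
-/

namespace Pool.Agent.Results.MP_4a593f_gt.PinchedEight

open Finset

/-- Algebraic curvature tensor on `ℝⁿ`: skew in the first pair, skew in the second pair, first
Bianchi identity (the pair symmetry follows). `R_{ijij}` is the sectional curvature of the
coordinate plane `i, j`. -/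
structure IsCurvature {n : ℕ} (R : Fin n → Fin n → Fin n → Fin n → ℝ) : Prop where
  skew12 : ∀ i j k l, R j i k l = - R i j k l
  skew34 : ∀ i j k l, R i j l k = - R i j k l
  bianchi : ∀ i j k l, R i j k l + R j k i l + R k i j l = 0

/-- Euclidean inner product -/
def dot {n : ℕ} (u v : Fin n → ℝ) : ℝ := ∑ i, u i * v i

/-- All sectional curvatures of `R` lie in `[δ, Δ]`. -/
def Pinched {n : ℕ} (R : Fin n → Fin n → Fin n → Fin n → ℝ) (δ Δ : ℝ) : Prop :=
  ∀ u v : Fin n → ℝ,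
    δ * (dot u u * dot v v - dot u v ^ 2) ≤ ∑ i, ∑ j, ∑ k, ∑ l, R i j k l * u i * v j * u k * v l ∧
    ∑ i, ∑ j, ∑ k, ∑ l, R i j k l * u i * v j * u k * v l ≤ Δ * (dot u u * dot v v - dot u v ^ 2)

/-- 3-form on `ℝⁿ`, in components: an array that changes sign under transpositions. -/
structure IsThreeForm {n : ℕ} (φ : Fin n → Fin n → Fin n → ℝ) : Prop where
  skew12 : ∀ i j k, φ j i k = - φ i j k
  skew23 : ∀ i j k, φ i k j = - φ i j k

/-- Curvature term of the Weitzenböck formula on 3-forms,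
`F(R,φ) = Ric_{ij} φ_{ikl} φ_{jkl} - R_{ijkl} φ_{ijm} φ_{klm}`, `Ric_{ij} = R_{iaja}`. -/
def bochner {n : ℕ} (R : Fin n → Fin n → Fin n → Fin n → ℝ) (φ : Fin n → Fin n → Fin n → ℝ) : ℝ :=
  (∑ i, ∑ j, (∑ a, R i a j a) * ∑ k, ∑ l, φ i k l * φ j k l)
    - ∑ m, ∑ i, ∑ j, ∑ k, ∑ l, R i j k l * φ i j m * φ k l m

private theorem ge_eight_aux {R : Fin 8 → Fin 8 → Fin 8 → Fin 8 → ℝ}
    {φ : Fin 8 → Fin 8 → Fin 8 → ℝ} {δ Δ : ℝ} (hlt : δ < Δ) (hR : IsCurvature R)
    (hs : Pinched R δ Δ) (hφ : IsThreeForm φ) :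
    (5 * δ - 391 / 300 * (Δ - δ)) * ∑ i, ∑ j, ∑ k, φ i j k ^ 2 ≤ bochner R φ := by
  have h1 : Pool.Hopf3.IsCurvature R := ⟨hR.skew12, hR.skew34, hR.bianchi⟩
  have h2 : Pool.Hopf3.SecIn R δ Δ := fun u v => hs u v
  have h3 : Pool.Hopf3.Form3 φ := ⟨hφ.skew12, hφ.skew23⟩
  have h4 := Pool.Hopf3.EU.bochner_ge_seven h1 hlt h2 h3
  have h5 : Pool.Hopf3.ip3 φ φ = 1 / 6 * ∑ i, ∑ j, ∑ k, φ i j k ^ 2 := by
    unfold Pool.Hopf3.ip3
    congr 1
    refine Finset.sum_congr rfl fun i _ => Finset.sum_congr rfl fun j _ =>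
      Finset.sum_congr rfl fun k _ => ?_
    ring
  rw [h5] at h4
  have h6 : Pool.Hopf3.bochner R φ = bochner R φ := rfl
  rw [h6] at h4
  linarith

private theorem ge_eight {R : Fin 8 → Fin 8 → Fin 8 → Fin 8 → ℝ}
    {φ : Fin 8 → Fin 8 → Fin 8 → ℝ} {δ Δ : ℝ} (hle : δ ≤ Δ) (hR : IsCurvature R)
    (hs : Pinched R δ Δ) (hφ : IsThreeForm φ) :
    (5 * δ - 391 / 300 * (Δ - δ)) * ∑ i, ∑ j, ∑ k, φ i j k ^ 2 ≤ bochner R φ := by
  rcases hle.lt_or_eq with h | h
  · exact ge_eight_aux h hR hs hφ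
  · subst h
    have hN : (0 : ℝ) ≤ ∑ i, ∑ j, ∑ k, φ i j k ^ 2 :=
      Finset.sum_nonneg fun i _ => Finset.sum_nonneg fun j _ => Finset.sum_nonneg fun k _ =>
        sq_nonneg _
    set N := ∑ i, ∑ j, ∑ k, φ i j k ^ 2 with hNd
    have hG : ∀ u v : Fin 8 → ℝ, 0 ≤ dot u u * dot v v - dot u v ^ 2 := by
      intro u v
      have := Finset.sum_mul_sq_le_sq_mul_sq Finset.univ u v
      unfold dot
      have e1 : ∑ i, u i * u i = ∑ i, u i ^ 2 := Finset.sum_congr rfl fun i _ => by ring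
      have e2 : ∑ i, v i * v i = ∑ i, v i ^ 2 := Finset.sum_congr rfl fun i _ => by ring
      rw [e1, e2]
      linarith
    have key : ∀ ε : ℝ, 0 < ε → (5 * δ - 391 / 300 * ε) * N ≤ bochner R φ := by
      intro ε hε
      have h1 : Pinched R δ (δ + ε) := by
        intro u v
        refine ⟨(hs u v).1, (hs u v).2.trans ?_⟩
        have := hG u v
        nlinarith
      have h2 := ge_eight_aux (by linarith : δ < δ + ε) hR h1 hφ
      have e : δ + ε - δ = ε := by ring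
      rwa [e] at h2
    have hlim : ∀ η : ℝ, 0 < η → 5 * δ * N ≤ bochner R φ + η := by
      intro η hη
      have hp : 0 < η / (391 / 300 * N + 1) := by positivity
      have h1 := key _ hp
      have h2 : 391 / 300 * (η / (391 / 300 * N + 1)) * N ≤ η := by
        have h3 : 391 / 300 * (η / (391 / 300 * N + 1)) * N
            = η * ((391 / 300 * N) / (391 / 300 * N + 1)) := by ring
        rw [h3]
        have h4 : (391 / 300 * N) / (391 / 300 * N + 1) ≤ 1 := by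
          rw [div_le_one (by positivity)]
          linarith
        nlinarith
      nlinarith
    have h7 := le_of_forall_pos_le_add hlim
    have e : (5 * δ - 391 / 300 * (δ - δ)) * N = 5 * δ * N := by ring
    rw [e]
    exact h7

/-- If all sectional curvatures of the algebraic curvature tensor `R` on `ℝ⁸` lie in `[δ, Δ]`,
then `F(R,φ) ≥ (5 δ - (391/300) (Δ - δ)) ∑ φ_{ijk}²` for every 3-form `φ`. In particular
`F(R,φ) > 0` for every 3-form `φ ≠ 0` if `1891 δ > 391 Δ`. -/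
theorem result {δ Δ : ℝ} (h : δ ≤ Δ) (R : Fin 8 → Fin 8 → Fin 8 → Fin 8 → ℝ)
    (hR : IsCurvature R) (hs : Pinched R δ Δ) (φ : Fin 8 → Fin 8 → Fin 8 → ℝ)
    (hφ : IsThreeForm φ) :
    (5 * δ - 391 / 300 * (Δ - δ)) * ∑ i, ∑ j, ∑ k, φ i j k ^ 2 ≤ bochner R φ ∧
    (391 * Δ < 1891 * δ → φ ≠ 0 → 0 < bochner R φ) := by
  have h1 := ge_eight h hR hs hφ
  refine ⟨h1, fun hp h0 => ?_⟩
  have h2 : 0 < ∑ i, ∑ j, ∑ k, φ i j k ^ 2 := by
    rcases (Finset.sum_nonneg fun i _ => Finset.sum_nonneg fun j _ => Finset.sum_nonneg fun k _ =>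
      sq_nonneg (φ i j k)).lt_or_eq with h3 | h3
    · exact h3
    · exfalso
      apply h0
      funext i j k
      have h4 := (Finset.sum_eq_zero_iff_of_nonneg fun i _ => Finset.sum_nonneg fun j _ =>
        Finset.sum_nonneg fun k _ => sq_nonneg (φ i j k)).1 h3.symm i (Finset.mem_univ i)
      have h5 := (Finset.sum_eq_zero_iff_of_nonneg fun j _ =>
        Finset.sum_nonneg fun k _ => sq_nonneg (φ i j k)).1 h4 j (Finset.mem_univ j)
      have h6 := (Finset.sum_eq_zero_iff_of_nonneg fun k _ =>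
        sq_nonneg (φ i j k)).1 h5 k (Finset.mem_univ k)
      exact pow_eq_zero_iff (two_ne_zero) |>.1 h6
  refine lt_of_lt_of_le ?_ h1
  apply mul_pos _ h2
  linarith

end Pool.Agent.Results.MP_4a593f_gt.PinchedEight
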