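import Pool.Agent.Lib.MP_4a593f_gt.Sharp

/-!
The sharp lower bound for the Bochner (Weitzenböck) curvature term on 3-forms of a 6-dimensional
Riemannian manifold with pinched curvature. The term is positive as soon as `4 Δ < 31 δ`.
-/

namespace Pool.Agent.Lib.MP_4a593f_gt.Kept.PinchedThreeForms

open Pool.HopfSix

/-- For `δ ≤ Δ`: if an algebraic curvature tensor `R` on `ℝ⁶` has all sectional curvatures at
least `δ` and the curvatures of any two orthogonal planes add up to at most `2 Δ` (in particular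
if all sectional curvatures lie in `[δ, Δ]`), then
`Ric_{ij} φ_{ikl} φ_{jkl} - R_{ijkl} φ_{ijm} φ_{klm} ≥ (3 δ - 4/9 (Δ - δ)) ∑ φ_{ijk}²`
for every 3-form `φ`; and the constant cannot be increased, even if all sectional curvatures are
required to lie in `[δ, Δ]`. -/
theorem result {δ Δ : ℝ} (h : δ ≤ Δ) :
    (∀ (R : Fin 6 → Fin 6 → Fin 6 → Fin 6 → ℝ) (φ : Fin 6 → Fin 6 → Fin 6 → ℝ),
      IsCurvature R → SecGE R δ → OrthLE R Δ → IsThreeForm φ →
        (3 * δ - 4 / 9 * (Δ - δ)) * ∑ i, ∑ j, ∑ k, φ i j k ^ 2 ≤ bochner R φ) ∧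
    (∃ (R : Fin 6 → Fin 6 → Fin 6 → Fin 6 → ℝ) (φ : Fin 6 → Fin 6 → Fin 6 → ℝ),
      IsCurvature R ∧ SecGE R δ ∧ SecLE R Δ ∧ IsThreeForm φ ∧ φ ≠ 0 ∧
        bochner R φ = (3 * δ - 4 / 9 * (Δ - δ)) * ∑ i, ∑ j, ∑ k, φ i j k ^ 2) := by
  refine ⟨fun R φ hR hδ hΔ hφ => bochner_bound hR hδ hΔ hφ, exR δ Δ, exφ, exR_curv δ Δ,
    exR_ge h, exR_le h, exφ_form, ?_, exR_value δ Δ⟩
  intro h0
  have h1 := congrFun (congrFun (congrFun h0 0) 1) 2
  simp [exφ, kd, om] at h1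

end Pool.Agent.Lib.MP_4a593f_gt.Kept.PinchedThreeForms
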