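import Pool.Agent.Lib.MP_4a593f_gt.P3.Main

/-!
The Bochner (Weitzenböck) curvature term on 3-forms in every dimension `n ≥ 6` is positive if the
curvature operator is `⌊6(n-3)/5⌋`-positive (with a quantitative and fractional version).
-/

namespace Pool.Agent.Lib.MP_4a593f_gt.Kept.ThreeFormsAllDim

open Pool.Hopf3 Finset

/-- Let `R` be an algebraic curvature tensor on `ℝⁿ`, `n ≥ 6`, and let `0 ≤ t ≤ 1`, `0 < m + t` and
`m + t ≤ 6 (n - 3) / 5`. If the eigenvalues `λ₁ ≤ λ₂ ≤ …` of the curvature operator satisfy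
`λ₁ + … + λ_m + t λ_{m+1} ≥ (m + t) κ` (stated without eigenvalues: for every orthonormal
`(m+1)`-tuple of 2-forms), then
`Ric_{ij} φ_{ikl} φ_{jkl} - R_{ijkl} φ_{ijm} φ_{klm} ≥ (n - 3) κ ∑ φ_{ijk}²` for all 3-forms `φ`. -/
theorem result (n m : ℕ) (t κ : ℝ) (hn : 6 ≤ n) (ht0 : 0 ≤ t) (_ : t ≤ 1) (hmt : 0 < m + t)
    (hmn : 5 * (m + t) ≤ 6 * (n - 3)) (R : Fin n → Fin n → Fin n → Fin n → ℝ)
    (hR : IsCurvature R)
    (hlow : ∀ ω : Fin (m + 1) → Fin n → Fin n → ℝ, Ortho ω →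
      (m + t) * κ ≤ ∑ a : Fin m, curvOp R (ω a.castSucc) + t * curvOp R (ω (Fin.last m)))
    (φ : Fin n → Fin n → Fin n → ℝ) (hφ : Form3 φ) :
    (n - 3) * κ * ∑ i, ∑ j, ∑ k, φ i j k ^ 2 ≤ bochner R φ :=
  main hn ht0 hmt hmn hR hlow hφ

end Pool.Agent.Lib.MP_4a593f_gt.Kept.ThreeFormsAllDim
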