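import Pool.Agent.Lib.MP_4a593f_gt.EU.Final

/-!
The Bochner (Weitzenböck) curvature term on 3-forms in every even dimension `n ≥ 4` under a
curvature pinching below 1/4: it is positive for pinching `> 8/33 = 0.2424…`.
-/

namespace Pool.Agent.Results.MP_4a593f_gt.ThreeFormsUniform

open Finset

/-- Algebraic curvature tensor on `ℝⁿ`: skew in the first pair, skew in the second pair, first
Bianchi identity (the pair symmetry follows). `R_{ijij}` is the sectional curvature of the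
coordinate plane `i, j`. -/
structure IsCurvature {n : ℕ} (R : Fin n → Fin n → Fin n → Fin n → ℝ) : Prop where
  skew12 : ∀ i j k l, R j i k l = - R i j k l
  skew34 : ∀ i j k l, R i j l k = - R i j k l
  bianchi : ∀ i j k l, R i j k l + R j k i l + R k i j l = 0

/-- Euclidean inner product -/
def dot {n : ℕ} (u v : Fin n → ℝ) : ℝ := ∑ i, u i * v i

/-- All sectional curvatures of `R` lie in `[δ, Δ]`. -/
def Pinched {n : ℕ} (R : Fin n → Fin n → Fin n → Fin n → ℝ) (δ Δ : ℝ) : Prop :=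
  ∀ u v : Fin n → ℝ,
    δ * (dot u u * dot v v - dot u v ^ 2) ≤ ∑ i, ∑ j, ∑ k, ∑ l, R i j k l * u i * v j * u k * v l ∧
    ∑ i, ∑ j, ∑ k, ∑ l, R i j k l * u i * v j * u k * v l ≤ Δ * (dot u u * dot v v - dot u v ^ 2)

/-- 3-form on `ℝⁿ`, in components: an array that changes sign under transpositions. -/
structure IsThreeForm {n : ℕ} (φ : Fin n → Fin n → Fin n → ℝ) : Prop where
  skew12 : ∀ i j k, φ j i k = - φ i j k
  skew23 : ∀ i j k, φ i k j = - φ i j k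

/-- Curvature term of the Weitzenböck formula on 3-forms,
`F(R,φ) = Ric_{ij} φ_{ikl} φ_{jkl} - R_{ijkl} φ_{ijm} φ_{klm}`, `Ric_{ij} = R_{iaja}`. -/
def bochner {n : ℕ} (R : Fin n → Fin n → Fin n → Fin n → ℝ) (φ : Fin n → Fin n → Fin n → ℝ) : ℝ :=
  (∑ i, ∑ j, (∑ a, R i a j a) * ∑ k, ∑ l, φ i k l * φ j k l)
    - ∑ m, ∑ i, ∑ j, ∑ k, ∑ l, R i j k l * φ i j m * φ k l m

private theorem ge_aux {m : ℕ} (hm : 1 ≤ m)
    {R : Fin (2 * m + 1 + 1) → Fin (2 * m + 1 + 1) → Fin (2 * m + 1 + 1) → Fin (2 * m + 1 + 1) → ℝ}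
    {φ : Fin (2 * m + 1 + 1) → Fin (2 * m + 1 + 1) → Fin (2 * m + 1 + 1) → ℝ} {δ Δ : ℝ}
    (hlt : δ < Δ) (hR : IsCurvature R)
    (hs : Pinched R δ Δ) (hφ : IsThreeForm φ) :
    (2 * (m : ℝ) - 1) * ((33 * δ - 8 * Δ) / 25) * ∑ i, ∑ j, ∑ k, φ i j k ^ 2 ≤ bochner R φ := by
  have h1 : Pool.Hopf3.IsCurvature R := ⟨hR.skew12, hR.skew34, hR.bianchi⟩
  have h2 : Pool.Hopf3.SecIn R δ Δ := fun u v => hs u v
  have h3 : Pool.Hopf3.Form3 φ := ⟨hφ.skew12, hφ.skew23⟩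
  have h4 := Pool.Hopf3.EU.bochner_ge_even hm h1 hlt h2 h3
  have h5 : Pool.Hopf3.ip3 φ φ = 1 / 6 * ∑ i, ∑ j, ∑ k, φ i j k ^ 2 := by
    unfold Pool.Hopf3.ip3
    congr 1
    refine Finset.sum_congr rfl fun i _ => Finset.sum_congr rfl fun j _ =>
      Finset.sum_congr rfl fun k _ => ?_
    ring
  rw [h5] at h4
  have h6 : Pool.Hopf3.bochner R φ = bochner R φ := rfl
  rw [h6] at h4
  refine le_trans (le_of_eq ?_) h4
  ring

private theorem ge_even {m : ℕ} (hm : 1 ≤ m)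
    {R : Fin (2 * m + 1 + 1) → Fin (2 * m + 1 + 1) → Fin (2 * m + 1 + 1) → Fin (2 * m + 1 + 1) → ℝ}
    {φ : Fin (2 * m + 1 + 1) → Fin (2 * m + 1 + 1) → Fin (2 * m + 1 + 1) → ℝ} {δ Δ : ℝ}
    (hle : δ ≤ Δ) (hR : IsCurvature R)
    (hs : Pinched R δ Δ) (hφ : IsThreeForm φ) :
    (2 * (m : ℝ) - 1) * ((33 * δ - 8 * Δ) / 25) * ∑ i, ∑ j, ∑ k, φ i j k ^ 2 ≤ bochner R φ := by
  rcases hle.lt_or_eq with h | h
  · exact ge_aux hm h hR hs hφ
  · subst h
    have hN : (0 : ℝ) ≤ ∑ i, ∑ j, ∑ k, φ i j k ^ 2 :=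
      Finset.sum_nonneg fun i _ => Finset.sum_nonneg fun j _ => Finset.sum_nonneg fun k _ =>
        sq_nonneg _
    have hm0 : (0 : ℝ) ≤ 2 * (m : ℝ) - 1 := by
      have : (1 : ℝ) ≤ m := by exact_mod_cast hm
      linarith
    set N := ∑ i, ∑ j, ∑ k, φ i j k ^ 2 with hNd
    set M := (2 * (m : ℝ) - 1) with hMd
    have hG : ∀ u v : Fin (2 * m + 1 + 1) → ℝ, 0 ≤ dot u u * dot v v - dot u v ^ 2 := by
      intro u v
      have := Finset.sum_mul_sq_le_sq_mul_sq Finset.univ u v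
      unfold dot
      have e1 : ∑ i, u i * u i = ∑ i, u i ^ 2 := Finset.sum_congr rfl fun i _ => by ring
      have e2 : ∑ i, v i * v i = ∑ i, v i ^ 2 := Finset.sum_congr rfl fun i _ => by ring
      rw [e1, e2]
      linarith
    have key : ∀ ε : ℝ, 0 < ε → M * ((33 * δ - 8 * (δ + ε)) / 25) * N ≤ bochner R φ := by
      intro ε hε
      have h1 : Pinched R δ (δ + ε) := by
        intro u v
        refine ⟨(hs u v).1, (hs u v).2.trans ?_⟩
        have := hG u v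
        nlinarith
      exact ge_aux hm (by linarith : δ < δ + ε) hR h1 hφ
    have hMN : 0 ≤ M * N := mul_nonneg hm0 hN
    have hlim : ∀ η : ℝ, 0 < η → M * ((33 * δ - 8 * δ) / 25) * N ≤ bochner R φ + η := by
      intro η hη
      have hp : 0 < η / (8 / 25 * (M * N) + 1) := by positivity
      have h1 := key _ hp
      have h2 : 8 / 25 * (M * N) * (η / (8 / 25 * (M * N) + 1)) ≤ η := by
        have h3 : 8 / 25 * (M * N) * (η / (8 / 25 * (M * N) + 1))
            = η * ((8 / 25 * (M * N)) / (8 / 25 * (M * N) + 1)) := by ring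
        rw [h3]
        have h4 : (8 / 25 * (M * N)) / (8 / 25 * (M * N) + 1) ≤ 1 := by
          rw [div_le_one (by positivity)]
          linarith
        nlinarith
      have h5 : M * ((33 * δ - 8 * (δ + η / (8 / 25 * (M * N) + 1))) / 25) * N
          = M * ((33 * δ - 8 * δ) / 25) * N
            - 8 / 25 * (M * N) * (η / (8 / 25 * (M * N) + 1)) := by ring
      rw [h5] at h1
      linarith
    exact le_of_forall_pos_le_add hlim

/-- Let `n ≥ 4` be even and let all sectional curvatures of the algebraic curvature tensor `R` on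
`ℝⁿ` lie in `[δ, Δ]`. Then `F(R,φ) ≥ (n - 3) ((33 δ - 8 Δ)/25) ∑ φ_{ijk}²` for every 3-form `φ`.
In particular `F(R,φ) > 0` for every 3-form `φ ≠ 0` if `33 δ > 8 Δ`. -/
theorem result {n : ℕ} (hn : 4 ≤ n) (he : Even n) {δ Δ : ℝ} (h : δ ≤ Δ)
    (R : Fin n → Fin n → Fin n → Fin n → ℝ) (hR : IsCurvature R) (hs : Pinched R δ Δ)
    (φ : Fin n → Fin n → Fin n → ℝ) (hφ : IsThreeForm φ) :
    ((n : ℝ) - 3) * ((33 * δ - 8 * Δ) / 25) * ∑ i, ∑ j, ∑ k, φ i j k ^ 2 ≤ bochner R φ ∧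
    (8 * Δ < 33 * δ → φ ≠ 0 → 0 < bochner R φ) := by
  obtain ⟨m, hm1, rfl⟩ : ∃ m : ℕ, 1 ≤ m ∧ n = 2 * m + 1 + 1 := by
    obtain ⟨k, hk⟩ := he
    exact ⟨k - 1, by omega, by omega⟩
  have h1 := ge_even hm1 h hR hs hφ
  have e : (((2 * m + 1 + 1 : ℕ) : ℝ) - 3) = 2 * (m : ℝ) - 1 := by
    push_cast
    ring
  rw [e]
  refine ⟨h1, fun hp h0 => ?_⟩
  have h2 : 0 < ∑ i, ∑ j, ∑ k, φ i j k ^ 2 := by
    rcases (Finset.sum_nonneg fun i _ => Finset.sum_nonneg fun j _ => Finset.sum_nonneg fun k _ =>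
      sq_nonneg (φ i j k)).lt_or_eq with h3 | h3
    · exact h3
    · exfalso
      apply h0
      funext i j k
      have h4 := (Finset.sum_eq_zero_iff_of_nonneg fun i _ => Finset.sum_nonneg fun j _ =>
        Finset.sum_nonneg fun k _ => sq_nonneg (φ i j k)).1 h3.symm i (Finset.mem_univ i)
      have h5 := (Finset.sum_eq_zero_iff_of_nonneg fun j _ =>
        Finset.sum_nonneg fun k _ => sq_nonneg (φ i j k)).1 h4 j (Finset.mem_univ j)
      have h6 := (Finset.sum_eq_zero_iff_of_nonneg fun k _ =>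
        sq_nonneg (φ i j k)).1 h5 k (Finset.mem_univ k)
      exact pow_eq_zero_iff (two_ne_zero) |>.1 h6
  have hm0 : (0 : ℝ) < 2 * (m : ℝ) - 1 := by
    have : (1 : ℝ) ≤ m := by exact_mod_cast hm1
    linarith
  refine lt_of_lt_of_le ?_ h1
  apply mul_pos (mul_pos hm0 _) h2
  linarith

end Pool.Agent.Results.MP_4a593f_gt.ThreeFormsUniform
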