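import Pool.Agent.Lib.MP_4a593f_gt.TF.Final

/-!
How many 2-forms are allowed? Let `R` be an algebraic curvature tensor on `ℝ^{2m}` which, as a
quadratic form on 2-forms, dominates the sum of the tensors `Λ²w_b + w_b ⊗ w_b` of `N` arbitrary
2-forms. If `N ≤ 2` the Gauss-Bonnet integrand of `R` is nonnegative, and positive when the
sectional curvature of `R` is positive, in every dimension. If `N ≥ 3` this fails in dimension 6,
even for tensors of positive sectional curvature.
-/

namespace Pool.Agent.Results.MP_4a593f_gt.TwoForms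

open scoped BigOperators
open Pool.TwoForms

/-- At most two 2-forms: positive Gauss-Bonnet integrand in all dimensions `2m`. At least three:
negative Gauss-Bonnet integrand possible in dimension 6 with positive sectional curvature. -/
theorem result (N : ℕ) :
    (N ≤ 2 → ∀ (m : ℕ) (R : Ten (2 * m)) (w : Fin N → Mat (2 * m)),
      IsCurvature R → (∀ b, Skew (w b)) →
      NonnegOnForms (fun i j k l => R i j k l - ∑ b, wsq (w b) i j k l) →
      0 ≤ gb m R ∧ (SecPos R → 0 < gb m R)) ∧
    (3 ≤ N → ∃ (R : Ten (2 * 3)) (w : Fin N → Mat (2 * 3)),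
      IsCurvature R ∧ (∀ b, Skew (w b)) ∧
      NonnegOnForms (fun i j k l =>
        R i j k l - ∑ b, (wsq (w b) i j k l + w b i j * w b k l)) ∧
      SecPos R ∧ gb 3 R < 0) :=
  ⟨fun hN m R w hR hw h => final_le hN m R w hR hw h, fun hN => final_ge hN⟩

end Pool.Agent.Results.MP_4a593f_gt.TwoForms
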