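import Pool.Agent.Lib.MP_4a593f_gt.Q5.Odd
import Pool.Agent.Lib.MP_4a593f_gt.N2.Z4

/-!
A universal constant for the Weitzenböck curvature term on `p`-forms: `k`-positive curvature
operators with `4 k ≤ p (n - p)`.
-/

open scoped BigOperators

namespace Pool.Agent.Results.MP_4a593f_gt.UniversalConstant

open HopfBig

/-- Let `C ≥ 3` and `n (4 - C) (n - 2 C) ≤ 2 n (C - 2)² + 4 (C - 2)³`, for instance `C = 4` or
`C = 3`, `n ≤ 8`.

(1) If `λ_1 + ... + λ_m + t λ_{m+1} ≥ (m+t) κ` for the (increasing) eigenvalues of the curvature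
operator of an algebraic curvature tensor on `ℝⁿ` (stated with orthonormal 2-forms),
`0 ≤ t ≤ 1`, `0 < m + t`, `C (m + t) ≤ p (n - p)`, then the curvature term of the Weitzenböck
formula on `p`-forms is at least `(n - p) κ |φ|²`.

(2) If the curvature operator is `k`-positive and `C k ≤ p (n - p)`, it is positive.

(3) For `5 k ≤ 6 (n - 3)` it is positive in all degrees `3 ≤ p ≤ n/2`, `p ≠ 4`, if
the curvature operator is `k`-positive.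

(4) There are `ε > 0` and `n₀` such that for `n ≥ n₀` and `k ≤ (1+ε) n` it is positive in all
degrees `3 ≤ p ≤ n/2` if the curvature operator is `k`-positive. -/
theorem result :
    (∀ (n p m : ℕ) (C t κ : ℝ), 3 ≤ C → (n : ℝ) * (4 - C) * (n - 2 * C) ≤
        2 * n * (C - 2) ^ 2 + 4 * (C - 2) ^ 3 → 0 ≤ t → t ≤ 1 →
      0 < (m : ℝ) + t → C * ((m : ℝ) + t) ≤ p * ((n : ℝ) - p) →
      ∀ R : Fin n → Fin n → Fin n → Fin n → ℝ, IsCurvature R →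
      (∀ ω : Fin (m + 1) → Fin n → Fin n → ℝ, (∀ i, IsTwoForm (ω i)) →
        (∀ i j, inner2 (ω i) (ω j) = if i = j then 1 else 0) →
        ((m : ℝ) + t) * κ ≤
          ∑ i : Fin m, curvOp R (ω i.castSucc) + t * curvOp R (ω (Fin.last m))) →
      ∀ φ : (Fin p → Fin n) → ℝ, IsForm φ → ((n : ℝ) - p) * κ * ∑ I, φ I ^ 2 ≤ bochner R φ) ∧
    (∀ (n p k : ℕ) (C : ℝ), 3 ≤ C → (n : ℝ) * (4 - C) * (n - 2 * C) ≤
        2 * n * (C - 2) ^ 2 + 4 * (C - 2) ^ 3 →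
      C * (k : ℝ) ≤ p * ((n : ℝ) - p) →
      ∀ R : Fin n → Fin n → Fin n → Fin n → ℝ, IsCurvature R → KPositive R k →
      ∀ φ : (Fin p → Fin n) → ℝ, IsForm φ → φ ≠ 0 → 0 < bochner R φ) ∧
    (∀ n p k : ℕ, 3 ≤ p → p ≠ 4 → 2 * p ≤ n → 5 * (k : ℝ) ≤ 6 * ((n : ℝ) - 3) →
      ∀ R : Fin n → Fin n → Fin n → Fin n → ℝ, IsCurvature R → KPositive R k →
      ∀ φ : (Fin p → Fin n) → ℝ, IsForm φ → φ ≠ 0 → 0 < bochner R φ) ∧
    (∃ ε : ℝ, 0 < ε ∧ ∃ n₀ : ℕ, ∀ n : ℕ, n₀ ≤ n → ∀ k : ℕ, (k : ℝ) ≤ (1 + ε) * n →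
      ∀ R : Fin n → Fin n → Fin n → Fin n → ℝ, IsCurvature R → KPositive R k →
      ∀ p : ℕ, 3 ≤ p → 2 * p ≤ n → ∀ φ : (Fin p → Fin n) → ℝ, IsForm φ → φ ≠ 0 →
      0 < bochner R φ) :=
  ⟨fun _ p _ _ _ _ hC hCn h0 h1 hm hk _ hR h _ hφ =>
    HopfD8.bd_weighted (by linarith) (fun m' => HopfQ5.bdG hC hCn m' p) h0 h1 hm hk hR h hφ,
   fun _ p _ _ hC hCn hk _ hR hKP _ hφ hφ0 =>
    HopfD8.bd_kpos (by linarith) (fun m' => HopfQ5.bdG hC hCn m' p) hk hR hKP hφ hφ0,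
   fun _ _ _ hp hp4 h2p hk _ hR hKP _ hφ hφ0 =>
    HopfQ5.six_fifths hp hp4 h2p hk hR hKP hφ hφ0,
   HopfN2.main_hopf⟩

end Pool.Agent.Results.MP_4a593f_gt.UniversalConstant
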